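import Pool.Agent.H81.Phylo.Main

namespace Pool.Agent.Results.MP_ea11fc_ag.DegreeSeventeen

open Pool.Agent.H81.Phylo

/-- `φ(ℤ/13, K_{1,3}) ≥ 17 > 13`: every generating set of the toric ideal `I(ℤ/13, K_{1,3})`
contains an element of degree at least `17`. -/
theorem result : Fintype.card (ZMod 13) = 13 ∧
    ∀ S : Set (MvPolynomial (Flow (ZMod 13)) ℂ), Ideal.span S = toricIdeal (ZMod 13) →
      ∃ p ∈ S, 17 ≤ p.totalDegree :=
  ⟨ZMod.card 13, fun _ hS => main hS⟩

end Pool.Agent.Results.MP_ea11fc_ag.DegreeSeventeen
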