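import Pool.Agent.H97.Phy.Fin

/-!
# MP_ea11fc_ag: exponential lower bound for `φ(G, K_{1,3})`, for every finite abelian group

Every generating set of the toric ideal `I(G, K_{1,3})` contains an element of degree at least
`exp (√|G| / 21)` (if `|G| ≥ 1100`), and of degree greater than `|G|` if `|G| ≥ 40000`.
The definitions of `Flow`, `toricMap` and `toricIdeal` are in `Pool/Agent/H81/Phylo/Defs.lean`.
-/

set_option autoImplicit false

namespace Pool.Agent.Results.MP_ea11fc_ag.ExponentialDegree

open Pool.Agent.H81.Phylo

theorem result (G : Type) [AddCommGroup G] [Fintype G] (hG : 1100 ≤ Fintype.card G)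
    (S : Set (MvPolynomial (Flow G) ℂ)) (hS : Ideal.span S = toricIdeal G) :
    ∃ p ∈ S, Real.exp (Real.sqrt (Fintype.card G) / 21) ≤ p.totalDegree ∧
      (40000 ≤ Fintype.card G → Fintype.card G < p.totalDegree) :=
  Pool.Agent.H97.Phy.exp_degree G hG S hS

end Pool.Agent.Results.MP_ea11fc_ag.ExponentialDegree
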